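import Pool.Agent.P8H25.SpStm

/-!
# Integrality of the leading coefficient of a signed trace sequence
-/

set_option autoImplicit false

open Polynomial Filter Topology

namespace Pool.Agent.P8H28.SP

universe w

section Idem

variable {K : Type w} [Field K] {J : Type} [Fintype J] [DecidableEq J]

theorem idem_trace (E : Matrix J J K) (h : E * E = E) : ∃ m : ℕ, E.trace = m := by
  have h1 : IsIdempotentElem (Matrix.toLin' E) := by
    have : Matrix.toLin' E * Matrix.toLin' E = Matrix.toLin' (E * E) := by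
      rw [Matrix.toLin'_mul]; rfl
    show Matrix.toLin' E * Matrix.toLin' E = _
    rw [this, h]
  refine ⟨Module.finrank K (LinearMap.range (Matrix.toLin' E)), ?_⟩
  have h2 := (LinearMap.IsIdempotentElem.isProj_range _ h1).trace
  rw [← h2]
  rw [LinearMap.trace_eq_matrix_trace K (Pi.basisFun K J), ← Matrix.toLin_eq_toLin',
    LinearMap.toMatrix_toLin]

/-- The signed trace of an idempotent that commutes with an involution is an integer. -/
theorem signed_trace [CharZero K] (P E : Matrix J J K) (hP : P * P = 1) (hE : E * E = E)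
    (hc : P * E = E * P) : ∃ m : ℤ, (P * E).trace = m := by
  have key : ∀ Q : Matrix J J K, Q * Q = 1 → Q * E = E * Q →
      (((2 : K)⁻¹ • ((1 + Q) * E)) * ((2 : K)⁻¹ • ((1 + Q) * E))) = (2 : K)⁻¹ • ((1 + Q) * E) := by
    intro Q hQ hQE
    have h1 : (1 + Q) * E * ((1 + Q) * E) = (2 : K) • ((1 + Q) * E) := by
      have h2 : E * (1 + Q) = (1 + Q) * E := by
        rw [mul_add, add_mul, mul_one, one_mul, hQE]
      have h3 : (1 + Q) * E * ((1 + Q) * E) = (1 + Q) * (1 + Q) * (E * E) := by
        calc (1 + Q) * E * ((1 + Q) * E) = (1 + Q) * (E * (1 + Q)) * E := by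
              simp only [mul_assoc]
          _ = _ := by rw [h2]; simp only [mul_assoc]
      rw [h3, hE]
      have h4 : (1 + Q) * (1 + Q) = (2 : K) • (1 + Q) := by
        rw [two_smul, mul_add, mul_one, add_mul, one_mul, hQ]
        abel
      rw [h4, Matrix.smul_mul]
    rw [Matrix.smul_mul, Matrix.mul_smul, h1, smul_smul, smul_smul]
    congr 1
    field_simp
  obtain ⟨a, ha⟩ := idem_trace _ (key P hP hc)
  obtain ⟨c, hc'⟩ := idem_trace _ (key (-P) (by simpa using hP) (by simp [hc]))
  refine ⟨(a : ℤ) - c, ?_⟩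
  have h5 : P * E = (2 : K)⁻¹ • ((1 + P) * E) - (2 : K)⁻¹ • ((1 + -P) * E) := by
    rw [← smul_sub, ← sub_mul]
    have : (1 + P) - (1 + -P) = (2 : K) • P := by
      rw [two_smul]; abel
    rw [this, Matrix.smul_mul, smul_smul, inv_mul_cancel₀ two_ne_zero, one_smul]
  rw [h5, Matrix.trace_sub, ha, hc']
  push_cast
  ring

/-- If all positive powers of `A` have the same signed trace, this trace is an integer. -/
theorem const_int [CharZero K] (P A : Matrix J J K) (hP : P * P = 1) (hc : P * A = A * P) (c : K)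
    (h : ∀ m : ℕ, 1 ≤ m → (P * A ^ m).trace = c) : ∃ m : ℤ, c = m := by
  classical
  obtain ⟨r, hr1, hr2⟩ := A.charpoly.exists_eq_pow_rootMultiplicity_mul_and_not_dvd
    A.charpoly_monic.ne_zero 1
  set k := A.charpoly.rootMultiplicity 1
  have hr3 : r.eval 1 ≠ 0 := by
    intro h0
    exact hr2 (dvd_iff_isRoot.2 h0)
  have hcop : IsCoprime (X * r) ((X - C (1 : K)) ^ (k + 1)) := by
    refine IsCoprime.pow_right ?_
    rw [isCoprime_comm]
    refine (Polynomial.irreducible_X_sub_C (1 : K)).coprime_iff_not_dvd.2 ?_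
    intro hd
    have := dvd_iff_isRoot.1 hd
    simp only [IsRoot.def, eval_mul, eval_X, one_mul] at this
    exact hr3 this
  obtain ⟨a, d, had⟩ := hcop
  set e : K[X] := a * (X * r) with he
  have he0 : e.eval 0 = 0 := by simp [he]
  have he1 : e.eval 1 = 1 := by
    have := congrArg (Polynomial.eval 1) had
    simpa [he] using this
  have hee : aeval A (e * e) = aeval A e := by
    have h1 : e * e - e = A.charpoly * (-(a * X * d * (X - C 1))) := by
      have h2 : e - 1 = -(d * (X - C 1) ^ (k + 1)) := by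
        rw [← had]; ring
      calc e * e - e = e * (e - 1) := by ring
        _ = e * (-(d * (X - C 1) ^ (k + 1))) := by rw [h2]
        _ = ((X - C 1) ^ k * r) * (-(a * X * d * (X - C 1))) := by rw [he]; ring
        _ = _ := by rw [← hr1]
    have h3 : aeval A (e * e - e) = 0 := by
      rw [h1, map_mul, Matrix.aeval_self_charpoly, zero_mul]
    rw [map_sub, sub_eq_zero] at h3
    exact h3
  have hPe : P * aeval A e = aeval A e * P := by
    have : Commute P (aeval A e) := by
      refine Polynomial.induction_on e ?_ ?_ ?_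
      · intro t
        rw [aeval_C]
        exact (Algebra.commutes t P).symm
      · intro p q hp hq
        rw [map_add]
        exact hp.add_right hq
      · intro n t _
        rw [map_mul, aeval_C, map_pow, aeval_X]
        exact Commute.mul_right (Algebra.commutes t P).symm (Commute.pow_right hc _)
    exact this
  obtain ⟨m, hm⟩ := signed_trace P (aeval A e) hP (by rw [← map_mul, hee]) hPe
  refine ⟨m, ?_⟩
  rw [← hm, aeval_eq_sum_range]
  have h0 : e.coeff 0 = 0 := by rw [coeff_zero_eq_eval_zero, he0]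
  have hs : ∑ i ∈ Finset.range (e.natDegree + 1), e.coeff i = 1 := by
    have := eval_eq_sum_range (p := e) (1 : K)
    rw [he1] at this
    simpa using this.symm
  rw [Finset.mul_sum, Matrix.trace_sum]
  have h7 : ∀ i ∈ Finset.range (e.natDegree + 1),
      (P * e.coeff i • A ^ i).trace = e.coeff i * c := by
    intro i _
    rw [Matrix.mul_smul, Matrix.trace_smul, smul_eq_mul]
    rcases Nat.eq_zero_or_pos i with hi | hi
    · subst hi; rw [h0, zero_mul, zero_mul]
    · rw [h i hi]
  rw [Finset.sum_congr rfl h7, ← Finset.sum_mul, hs, one_mul]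

end Idem

section Rec

variable {I : Type} [Fintype I] [DecidableEq I] (S : Matrix I I ℚ) (x y : I → ℚ)

/-- The functional on polynomials attached to a linear recurrence. -/
noncomputable def ell : ℚ[X] →ₗ[ℚ] ℚ where
  toFun p := x ⬝ᵥ ((aeval S p).mulVec y)
  map_add' p q := by rw [map_add, Matrix.add_mulVec, dotProduct_add]
  map_smul' a p := by
    rw [map_smul, Matrix.smul_mulVec, dotProduct_smul]; rfl

theorem ell_pow (n : ℕ) : ell S x y (X ^ n) = x ⬝ᵥ ((S ^ n).mulVec y) := by
  show x ⬝ᵥ ((aeval S (X ^ n)).mulVec y) = _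
  rw [map_pow, aeval_X]

theorem ell_char (p : ℚ[X]) : ell S x y (S.charpoly * p) = 0 := by
  show x ⬝ᵥ ((aeval S (S.charpoly * p)).mulVec y) = _
  rw [map_mul, Matrix.aeval_self_charpoly, zero_mul, Matrix.zero_mulVec, dotProduct_zero]

theorem ell_lim (b : ℕ) (hb : 0 < b) (κ : ℝ)
    (hlim : Tendsto (fun n => ((x ⬝ᵥ ((S ^ n).mulVec y) : ℚ) : ℝ) / (b : ℝ) ^ n) atTop (𝓝 κ))
    (p : ℚ[X]) :
    Tendsto (fun n => ((ell S x y (X ^ n * p) : ℚ) : ℝ) / (b : ℝ) ^ n) atTop
      (𝓝 (κ * ((p.eval (b : ℚ) : ℚ) : ℝ))) := by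
  have hb' : (b : ℝ) ≠ 0 := by positivity
  refine Polynomial.induction_on' p ?_ ?_
  · intro p q hp hq
    have := hp.add hq
    simp only [mul_add, map_add, eval_add, Rat.cast_add, add_div] at this ⊢
    exact this
  · intro k a
    have h1 := (hlim.comp (tendsto_add_atTop_nat k)).mul_const ((a : ℝ) * (b : ℝ) ^ k)
    have h2 : (κ * (((monomial k a).eval (b : ℚ) : ℚ) : ℝ)) = κ * ((a : ℝ) * (b : ℝ) ^ k) := by
      rw [eval_monomial]; push_cast; ring
    rw [h2]
    refine h1.congr fun n => ?_
    have h3 : ell S x y (X ^ n * monomial k a) = a * (x ⬝ᵥ ((S ^ (n + k)).mulVec y)) := by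
      have : X ^ n * monomial k a = a • X ^ (n + k) := by
        rw [← C_mul_X_pow_eq_monomial, smul_eq_C_mul, pow_add]; ring
      rw [this, map_smul, ell_pow, smul_eq_mul]
    simp only [Function.comp]
    rw [h3]
    generalize (x ⬝ᵥ ((S ^ (n + k)).mulVec y)) = t
    rw [pow_add]
    push_cast
    field_simp

/-- The leading functional: on multiples of `g` it is the evaluation at `b`. -/
theorem ell_lead (b : ℕ) (hb : 0 < b) (κ : ℝ)
    (hlim : Tendsto (fun n => ((x ⬝ᵥ ((S ^ n).mulVec y) : ℚ) : ℝ) / (b : ℝ) ^ n) atTop (𝓝 κ)) :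
    ∃ g : ℚ[X], g.eval (b : ℚ) ≠ 0 ∧ ∀ h : ℚ[X],
      ((ell S x y (g * h) : ℚ) : ℝ) = κ * ((g.eval (b : ℚ) * h.eval (b : ℚ) : ℚ) : ℝ) := by
  classical
  obtain ⟨g, hg1, hg2⟩ := S.charpoly.exists_eq_pow_rootMultiplicity_mul_and_not_dvd
    S.charpoly_monic.ne_zero (b : ℚ)
  set j := S.charpoly.rootMultiplicity (b : ℚ)
  have hgb : g.eval (b : ℚ) ≠ 0 := fun h0 => hg2 (dvd_iff_isRoot.2 h0)
  have hb' : (b : ℝ) ≠ 0 := by positivity
  -- one step of the descent
  have step : ∀ q : ℚ[X], (∀ h : ℚ[X], ell S x y ((X - C (b : ℚ)) * q * h) = 0) →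
      ∀ h : ℚ[X], ((ell S x y (q * h) : ℚ) : ℝ) = κ * (((q * h).eval (b : ℚ) : ℚ) : ℝ) := by
    intro q hq h
    have h1 : ∀ n : ℕ, ((ell S x y (X ^ n * (q * h)) : ℚ) : ℝ) / (b : ℝ) ^ n =
        ((ell S x y (q * h) : ℚ) : ℝ) := by
      intro n
      induction n with
      | zero => simp
      | succ n ih =>
        rw [← ih]
        have h2 : ell S x y (X ^ (n + 1) * (q * h)) = b * ell S x y (X ^ n * (q * h)) := by
          have h3 : X ^ (n + 1) * (q * h) = (X - C (b : ℚ)) * q * (X ^ n * h) +
              (b : ℚ) • (X ^ n * (q * h)) := by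
            rw [smul_eq_C_mul]; ring
          rw [h3, map_add, hq, zero_add, map_smul, smul_eq_mul]
        rw [h2, pow_succ]
        push_cast
        field_simp
    have h4 := ell_lim S x y b hb κ hlim (q * h)
    simp only [h1] at h4
    exact (tendsto_nhds_unique tendsto_const_nhds h4).trans (by ring_nf)
  have desc : ∀ i : ℕ, i ≤ j → ∀ h : ℚ[X],
      ell S x y ((X - C (b : ℚ)) ^ (j - i) * g * h) = 0 ∨ j - i = 0 := by
    intro i
    induction i with
    | zero =>
      intro _ h
      left
      rw [Nat.sub_zero, ← hg1]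
      exact ell_char S x y h
    | succ i ih =>
      intro hi h
      rcases Nat.eq_zero_or_pos (j - (i + 1)) with h0 | h0
      · exact Or.inr h0
      · left
        have h5 := step ((X - C (b : ℚ)) ^ (j - (i + 1)) * g) (fun h' => by
          have h6 := ih (by omega) h'
          rcases h6 with h6 | h6
          · have h7 : j - i = (j - (i + 1)) + 1 := by omega
            rw [h7, pow_succ] at h6
            rw [← h6]
            congr 1
            ring
          · omega) h
        have h8 : (((X - C (b : ℚ)) ^ (j - (i + 1)) * g * h).eval (b : ℚ)) = 0 := by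
          simp [h0.ne']
        rw [h8] at h5
        simpa using h5
  refine ⟨g, hgb, fun h => ?_⟩
  have h9 : ∀ h' : ℚ[X], ell S x y ((X - C (b : ℚ)) * g * h') = 0 := by
    intro h'
    rcases Nat.eq_zero_or_pos j with hj | hj
    · have h10 : S.charpoly = g := by rw [hg1, hj]; simp
      have h11 := ell_char S x y ((X - C (b : ℚ)) * h')
      rw [h10] at h11
      rw [← h11]
      congr 1
      ring
    · rcases desc (j - 1) (by omega) h' with h12 | h12
      · have h13 : j - (j - 1) = 1 := by omega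
        rw [h13, pow_one] at h12
        exact h12
      · omega
  have h14 := step g h9 h
  rw [h14, eval_mul]

end Rec

theorem int_thm : Pool.Agent.P8H25.Stm.S_INT.{w} := by
  intro K _ _ J _ _ P L hP hPL I _ _ S x y s hs b hb κ hκ hlim D hD
  classical
  have hlim' : Tendsto (fun n => ((x ⬝ᵥ ((S ^ n).mulVec y) : ℚ) : ℝ) / (b : ℝ) ^ n) atTop
      (𝓝 κ) := by
    refine hlim.congr fun n => ?_
    rw [hs]
  obtain ⟨g, hg, hlead⟩ := ell_lead S x y b hb κ hlim'
  set gb : ℚ := g.eval (b : ℚ) with hgb
  set q : ℚ := ell S x y g / gb with hq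
  have hbQ : (b : ℚ) ≠ 0 := by positivity
  have hqκ : (q : ℝ) = κ := by
    have h1 := hlead 1
    rw [mul_one, eval_one, mul_one] at h1
    have h2 : (gb : ℝ) ≠ 0 := by exact_mod_cast hg
    rw [hq]
    push_cast
    rw [h1]
    field_simp
  have hlead' : ∀ h : ℚ[X], ell S x y (g * h) = q * (gb * h.eval (b : ℚ)) := by
    intro h
    have h1 := hlead h
    rw [← hqκ] at h1
    exact_mod_cast h1
  refine ⟨q, hqκ, ?_⟩
  -- the functional on the matrix side
  have hD' : ∀ r : ℚ[X], r.coeff 0 = 0 →
      (P * aeval L (r.map (algebraMap ℚ K))).trace = D * ((ell S x y r : ℚ) : K) := by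
    intro r hr
    have h1 : aeval L (r.map (algebraMap ℚ K)) =
        ∑ i ∈ Finset.range (r.natDegree + 1), ((r.coeff i : ℚ) : K) • L ^ i := by
      rw [aeval_map_algebraMap]
      rw [aeval_eq_sum_range]
      refine Finset.sum_congr rfl fun i _ => ?_
      rw [← algebraMap_smul K (r.coeff i) (L ^ i)]
      simp
    have h2 : ell S x y r = ∑ i ∈ Finset.range (r.natDegree + 1), r.coeff i * s i := by
      conv_lhs => rw [r.as_sum_range_C_mul_X_pow]
      rw [map_sum]
      refine Finset.sum_congr rfl fun i _ => ?_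
      rw [← smul_eq_C_mul, map_smul, ell_pow, hs, smul_eq_mul]
    rw [h1, h2, Finset.mul_sum, Matrix.trace_sum]
    push_cast
    rw [Finset.mul_sum]
    refine Finset.sum_congr rfl fun i _ => ?_
    rw [Matrix.mul_smul, Matrix.trace_smul, smul_eq_mul]
    rcases Nat.eq_zero_or_pos i with hi | hi
    · subst hi; rw [hr]; simp
    · rw [hD i hi]; ring
  set p : ℚ[X] := g * (C ((gb * b)⁻¹) * X) with hp
  have hpb : p.eval (b : ℚ) = 1 := by
    rw [hp]
    simp only [eval_mul, eval_C, eval_X]
    rw [← hgb]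
    field_simp
  have hpm : ∀ m : ℕ, 1 ≤ m → ell S x y (p ^ m) = q := by
    intro m hm
    obtain ⟨k, rfl⟩ : ∃ k, m = k + 1 := ⟨m - 1, by omega⟩
    have h1 : p ^ (k + 1) = g * (C ((gb * b)⁻¹) * X * p ^ k) := by
      rw [pow_succ]
      conv_lhs => rw [show p ^ k * p = p * p ^ k by ring]
      nth_rewrite 1 [hp]
      ring
    rw [h1, hlead']
    simp only [eval_mul, eval_C, eval_X, eval_pow]
    rw [hpb, one_pow, mul_one]
    field_simp
  set A : Matrix J J K := aeval L (p.map (algebraMap ℚ K)) with hA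
  have hPA : P * A = A * P := by
    have : Commute P A := by
      rw [hA]
      refine Polynomial.induction_on (p.map (algebraMap ℚ K)) ?_ ?_ ?_
      · intro t
        rw [aeval_C]
        exact (Algebra.commutes t P).symm
      · intro p q hp hq
        rw [map_add]
        exact hp.add_right hq
      · intro n t _
        rw [map_mul, aeval_C, map_pow, aeval_X]
        exact Commute.mul_right (Algebra.commutes t P).symm (Commute.pow_right hPL _)
    exact this
  obtain ⟨m, hm⟩ := const_int P A hP hPA (D * (q : K)) (fun m hm => by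
    have h1 : (p ^ m).coeff 0 = 0 := by
      rw [coeff_zero_eq_eval_zero, eval_pow]
      have : p.eval 0 = 0 := by rw [hp]; simp
      rw [this]
      exact zero_pow (by omega)
    have h2 := hD' (p ^ m) h1
    rw [Polynomial.map_pow, map_pow] at h2
    rw [← hA] at h2
    rw [h2, hpm m hm])
  exact ⟨m, hm⟩

end Pool.Agent.P8H28.SP
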